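import Mathlib

namespace Pool.Agent.Results.MP_fcd74d_nt.InfinitelyManyGood

/-- `n ≥ 3` is good if `n - 2 ^ k` is squarefree for every `k ≥ 1` with `2 ^ k < n`. -/
def Good (n : ℕ) : Prop := 3 ≤ n ∧ ∀ k : ℕ, 1 ≤ k → 2 ^ k < n → Squarefree (n - 2 ^ k)

/-- weight -/
noncomputable def hh (m : ℕ) : ℝ := if Nat.Coprime 30030 m then 1 / (m : ℝ) ^ 2 else 0

lemma hh_nonneg (m : ℕ) : 0 ≤ hh m := by
  unfold hh; split_ifs <;> positivity

lemma phi : Nat.totient 30030 = 5760 := by decide +kernel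

lemma block (b : ℕ) (hb : 0 < b) :
    ∑ m ∈ Finset.Ico b (b + 30030), hh m ≤ 5760 / (b : ℝ) ^ 2 := by
  unfold hh
  rw [← Finset.sum_filter]
  have h1 : ∀ m ∈ (Finset.Ico b (b + 30030)).filter (fun m => Nat.Coprime 30030 m),
      1 / (m : ℝ) ^ 2 ≤ 1 / (b : ℝ) ^ 2 := by
    intro m hm
    rw [Finset.mem_filter, Finset.mem_Ico] at hm
    have hbR : (0 : ℝ) < b := by exact_mod_cast hb
    have hmb : (b : ℝ) ≤ m := by exact_mod_cast hm.1.1
    apply one_div_le_one_div_of_le (by positivity)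
    exact pow_le_pow_left₀ hbR.le hmb 2
  have h2 := Finset.sum_le_card_nsmul _ _ _ h1
  rw [Nat.filter_coprime_Ico_eq_totient, phi] at h2
  refine h2.trans (le_of_eq ?_)
  rw [nsmul_eq_mul]
  push_cast
  ring

lemma blocks (a : ℕ) (ha : 0 < a) (N : ℕ) :
    ∑ m ∈ Finset.Ico a (a + 30030 * (N + 1)), hh m ≤
      5760 / (a : ℝ) ^ 2 + (5760 / 30030) * (1 / (a : ℝ) - 1 / ((a : ℝ) + 30030 * N)) := by
  have haR : (0 : ℝ) < a := by exact_mod_cast ha
  induction N with
  | zero =>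
    have := block a ha
    simpa using this
  | succ N ih =>
    have hsplit : ∑ m ∈ Finset.Ico a (a + 30030 * (N + 1 + 1)), hh m =
        ∑ m ∈ Finset.Ico a (a + 30030 * (N + 1)), hh m +
        ∑ m ∈ Finset.Ico (a + 30030 * (N + 1)) (a + 30030 * (N + 1) + 30030), hh m := by
      have e : a + 30030 * (N + 1 + 1) = a + 30030 * (N + 1) + 30030 := by ring
      rw [e, Finset.sum_Ico_consecutive _ (by omega) (by omega)]
    rw [hsplit]
    have hb := block (a + 30030 * (N + 1)) (by omega)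
    have hN : (0 : ℝ) ≤ N := Nat.cast_nonneg N
    have key : 5760 / ((a + 30030 * (N + 1) : ℕ) : ℝ) ^ 2 ≤
        (5760 / 30030) * (1 / ((a : ℝ) + 30030 * N) - 1 / ((a : ℝ) + 30030 * (N + 1 : ℕ))) := by
      push_cast
      set u : ℝ := (a : ℝ) + 30030 * N with hu
      have hu0 : 0 < u := by positivity
      have e1 : (a : ℝ) + 30030 * ((N : ℝ) + 1) = u + 30030 := by rw [hu]; ring
      rw [e1]
      have e2 : (5760 / 30030 : ℝ) * (1 / u - 1 / (u + 30030)) = 5760 / (u * (u + 30030)) := by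
        field_simp
        ring
      rw [e2]
      apply div_le_div_of_nonneg_left (by norm_num) (by positivity)
      nlinarith
    calc _ ≤ (5760 / (a : ℝ) ^ 2 + (5760 / 30030) * (1 / (a : ℝ) - 1 / ((a : ℝ) + 30030 * N))) +
          (5760 / 30030) * (1 / ((a : ℝ) + 30030 * N) - 1 / ((a : ℝ) + 30030 * (N + 1 : ℕ))) :=
          add_le_add ih (hb.trans key)
      _ = _ := by ring

lemma coprime_prime {p : ℕ} (hp : p.Prime) (h : 13 < p) : Nat.Coprime 30030 p := by
  rw [Nat.coprime_comm, hp.coprime_iff_not_dvd]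
  intro hd
  have e : 30030 = 2 * 3 * 5 * 7 * 11 * 13 := by norm_num
  rw [e] at hd
  simp only [hp.dvd_mul] at hd
  rcases hd with ((((hd | hd) | hd) | hd) | hd) | hd <;>
  · have := Nat.le_of_dvd (by norm_num) hd
    omega

/-- primes in `[a, Z)` -/
def TT (a Z : ℕ) : Finset ℕ := (Finset.Ico a Z).filter Nat.Prime

lemma prime_sum (a Z : ℕ) (ha : 13 < a) :
    ∑ p ∈ TT a Z, 1 / (p : ℝ) ^ 2 ≤ 5760 / (a : ℝ) ^ 2 + (5760 / 30030) * (1 / (a : ℝ)) := by
  have h1 : ∑ p ∈ TT a Z, 1 / (p : ℝ) ^ 2 = ∑ p ∈ TT a Z, hh p := by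
    apply Finset.sum_congr rfl
    intro p hp
    rw [TT, Finset.mem_filter, Finset.mem_Ico] at hp
    unfold hh
    rw [if_pos (coprime_prime hp.2 (by omega))]
  rw [h1]
  have h2 : ∑ p ∈ TT a Z, hh p ≤ ∑ m ∈ Finset.Ico a (a + 30030 * (Z + 1)), hh m := by
    apply Finset.sum_le_sum_of_subset_of_nonneg
    · intro p hp
      rw [TT, Finset.mem_filter, Finset.mem_Ico] at hp
      rw [Finset.mem_Ico]
      omega
    · intro m _ _
      exact hh_nonneg m
  refine h2.trans ((blocks a (by omega) Z).trans ?_)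
  have haR : (0 : ℝ) < a := by
    have : 0 < a := by omega
    exact_mod_cast this
  have : 0 ≤ 1 / ((a : ℝ) + 30030 * Z) := by positivity
  nlinarith

/-- product of the odd primes up to `y` -/
def PP (y : ℕ) : ℕ := ∏ p ∈ (Finset.range (y + 1)).filter (fun p => p.Prime ∧ p ≠ 2), p

lemma PP_le (y : ℕ) : PP y ≤ 4 ^ y := by
  refine le_trans ?_ (primorial_le_four_pow y)
  unfold PP primorial
  apply Finset.prod_le_prod_of_subset_of_one_le'
  · intro p hp
    rw [Finset.mem_filter] at hp ⊢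
    exact ⟨hp.1, hp.2.1⟩
  · intro p hp _
    rw [Finset.mem_filter] at hp
    exact hp.2.one_lt.le

lemma PP_pos (y : ℕ) : 0 < PP y := by
  unfold PP
  apply Finset.prod_pos
  intro p hp
  rw [Finset.mem_filter] at hp
  exact hp.2.1.pos

lemma dvd_PP {p y : ℕ} (hp : p.Prime) (h2 : p ≠ 2) (hy : p ≤ y) : p ∣ PP y := by
  unfold PP
  apply Finset.dvd_prod_of_mem
  rw [Finset.mem_filter, Finset.mem_range]
  exact ⟨by omega, hp, h2⟩

lemma PP_odd (y : ℕ) : Odd (PP y) := by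
  rw [← Nat.not_even_iff_odd, even_iff_two_dvd]
  intro h
  unfold PP at h
  obtain ⟨p, hp, hd⟩ := (Prime.dvd_finsetProd_iff Nat.prime_two.prime _).1 h
  rw [Finset.mem_filter] at hp
  exact hp.2.2 ((Nat.prime_dvd_prime_iff_eq Nat.prime_two hp.2.1).1 hd).symm

lemma coprime_PP {p y : ℕ} (hp : p.Prime) (hy : y < p) : Nat.Coprime p (PP y) := by
  rw [hp.coprime_iff_not_dvd]
  intro h
  unfold PP at h
  obtain ⟨q, hq, hd⟩ := (Prime.dvd_finsetProd_iff hp.prime _).1 h
  rw [Finset.mem_filter, Finset.mem_range] at hq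
  have := (Nat.prime_dvd_prime_iff_eq hp hq.2.1).1 hd
  omega

/-- bad indices -/
def bad (P J k p : ℕ) : Finset ℕ :=
  (Finset.range J).filter (fun j => P * (2 * j + 1) ≡ 2 ^ k [MOD p * p])

lemma bad_card (P J k p : ℕ) (hp : p.Prime) (hp2 : p ≠ 2) (hP : Nat.Coprime p P) :
    (bad P J k p).card ≤ J / (p * p) + 1 := by
  rcases (bad P J k p).eq_empty_or_nonempty with h | ⟨j0, hj0⟩
  · rw [h]; simp
  · have hsub : bad P J k p ⊆ (Finset.range J).filter (fun j => j ≡ j0 [MOD p * p]) := by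
      intro j hj
      rw [bad, Finset.mem_filter] at hj hj0
      rw [Finset.mem_filter]
      refine ⟨hj.1, ?_⟩
      have h1 : P * (2 * j + 1) ≡ P * (2 * j0 + 1) [MOD p * p] := hj.2.trans hj0.2.symm
      have hc : Nat.gcd (p * p) P = 1 := Nat.Coprime.mul_left hP hP
      have h2 : 2 * j + 1 ≡ 2 * j0 + 1 [MOD p * p] := Nat.ModEq.cancel_left_of_coprime hc h1
      have h3 : 2 * j ≡ 2 * j0 [MOD p * p] := Nat.ModEq.add_right_cancel' 1 h2
      have hc2 : Nat.gcd (p * p) 2 = 1 := by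
        have : Nat.Coprime p 2 := (Nat.coprime_primes hp Nat.prime_two).2 hp2
        exact Nat.Coprime.mul_left this this
      exact Nat.ModEq.cancel_left_of_coprime hc2 h3
    have h4 := Finset.card_le_card hsub
    rw [← Nat.count_eq_card_filter_range, Nat.count_modEq_card _ (Nat.mul_pos hp.pos hp.pos)] at h4
    refine h4.trans ?_
    split_ifs <;> omega

lemma pow_big : ∀ s : ℕ, 13 ≤ s → 360 * s ≤ 2 ^ s := by
  intro s hs
  induction s, hs using Nat.le_induction with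
  | base => norm_num
  | succ s hs ih => rw [pow_succ]; omega

/-- For large `s` some odd multiple `P (2 j + 1)` of `P = PP (4 s)` avoids all bad events. -/
lemma exists_j (s : ℕ) (hs : 1000000 ≤ s) :
    ∃ j, j < 2 ^ (10 * s - 1) ∧ ∀ k, k < 18 * s → ∀ p ∈ TT (4 * s + 1) (2 ^ (9 * s)),
      ¬ (PP (4 * s) * (2 * j + 1) ≡ 2 ^ k [MOD p * p]) := by
  classical
  set J := 2 ^ (10 * s - 1) with hJ
  set T := TT (4 * s + 1) (2 ^ (9 * s)) with hT
  set P := PP (4 * s) with hP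
  let B : Finset ℕ := (Finset.range (18 * s)).biUnion fun k => T.biUnion fun p => bad P J k p
  have hTp : ∀ p ∈ T, p.Prime ∧ 4 * s < p := by
    intro p hp
    rw [hT, TT, Finset.mem_filter, Finset.mem_Ico] at hp
    exact ⟨hp.2, by omega⟩
  have hBcard : (B.card : ℝ) ≤ (18 * s : ℕ) * (J * (∑ p ∈ T, 1 / (p : ℝ) ^ 2) + 2 ^ (9 * s)) := by
    have h1 : B.card ≤ ∑ k ∈ Finset.range (18 * s), ∑ p ∈ T, (J / (p * p) + 1) := by
      refine Finset.card_biUnion_le.trans (Finset.sum_le_sum fun k _ => ?_)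
      refine Finset.card_biUnion_le.trans (Finset.sum_le_sum fun p hp => ?_)
      obtain ⟨hpp, hlt⟩ := hTp p hp
      exact bad_card P J k p hpp (by omega) (coprime_PP hpp hlt)
    have h2 : (B.card : ℝ) ≤ ((∑ k ∈ Finset.range (18 * s), ∑ p ∈ T, (J / (p * p) + 1) : ℕ) : ℝ) := by
      exact_mod_cast h1
    refine h2.trans ?_
    rw [Finset.sum_const, Finset.card_range, nsmul_eq_mul]
    push_cast
    apply mul_le_mul_of_nonneg_left _ (by positivity)
    rw [Finset.sum_add_distrib]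
    apply add_le_add
    · rw [Finset.mul_sum]
      apply Finset.sum_le_sum
      intro p hp
      have h3 : ((J / (p * p) : ℕ) : ℝ) ≤ (J : ℝ) / ((p * p : ℕ) : ℝ) := Nat.cast_div_le
      refine h3.trans (le_of_eq ?_)
      push_cast
      rw [← pow_two, mul_one_div]
    · rw [Finset.sum_const, nsmul_eq_mul, mul_one]
      have h4 : T.card ≤ 2 ^ (9 * s) := by
        rw [hT, TT]
        refine (Finset.card_filter_le _ _).trans ?_
        rw [Nat.card_Ico]
        exact Nat.sub_le _ _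
      exact_mod_cast h4
  have hsR : (1000000 : ℝ) ≤ s := by exact_mod_cast hs
  have hJpos : (0 : ℝ) < (J : ℝ) := by rw [hJ]; positivity
  have hlt : B.card < J := by
    have hS := prime_sum (4 * s + 1) (2 ^ (9 * s)) (by omega)
    rw [← hT] at hS
    set Sg := ∑ p ∈ T, 1 / (p : ℝ) ^ 2 with hSg
    have hS2 : (18 * s : ℝ) * Sg ≤ 0.87 := by
      have e0 : (0 : ℝ) < s := by linarith
      have e1 : 5760 / ((4 * s + 1 : ℕ) : ℝ) ^ 2 ≤ 5760 / (16 * (s : ℝ) ^ 2) := by
        apply div_le_div_of_nonneg_left (by norm_num) (by positivity)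
        push_cast
        nlinarith
      have e2 : 1 / ((4 * s + 1 : ℕ) : ℝ) ≤ 1 / (4 * (s : ℝ)) := by
        apply one_div_le_one_div_of_le (by positivity)
        push_cast
        linarith
      have e3 : Sg ≤ 5760 / (16 * (s : ℝ) ^ 2) + (5760 / 30030) * (1 / (4 * (s : ℝ))) := by
        have : (5760 / 30030 : ℝ) * (1 / ((4 * s + 1 : ℕ) : ℝ)) ≤
            (5760 / 30030) * (1 / (4 * (s : ℝ))) := by
          apply mul_le_mul_of_nonneg_left e2 (by norm_num)
        linarith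
      have e4 : (18 * s : ℝ) * Sg ≤
          (18 * s : ℝ) * (5760 / (16 * (s : ℝ) ^ 2) + (5760 / 30030) * (1 / (4 * (s : ℝ)))) :=
        mul_le_mul_of_nonneg_left e3 (by positivity)
      have e5 : (18 * s : ℝ) * (5760 / (16 * (s : ℝ) ^ 2) + (5760 / 30030) * (1 / (4 * (s : ℝ))))
          = 6480 / s + 18 * 5760 / (4 * 30030) := by
        field_simp
        ring
      have e6 : (6480 : ℝ) / s ≤ 6480 / 1000000 := by
        apply div_le_div_of_nonneg_left (by norm_num) (by norm_num) hsR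
      rw [e5] at e4
      have e7 : (6480 : ℝ) / 1000000 + 18 * 5760 / (4 * 30030) ≤ 0.87 := by norm_num
      linarith
    have hK : (18 * s : ℝ) * 2 ^ (9 * s) ≤ 0.1 * J := by
      have h5 := pow_big s (by omega)
      have h6 : 180 * s * 2 ^ (9 * s) ≤ J := by
        have : 2 * J = 2 ^ s * 2 ^ (9 * s) := by
          rw [hJ, ← pow_succ', ← pow_add]
          congr 1
          omega
        have h7 : 360 * s * 2 ^ (9 * s) ≤ 2 ^ s * 2 ^ (9 * s) := Nat.mul_le_mul_right _ h5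
        have h8 : 360 * s * 2 ^ (9 * s) = 2 * (180 * s * 2 ^ (9 * s)) := by ring
        omega
      have h9 : (180 : ℝ) * s * 2 ^ (9 * s) ≤ J := by exact_mod_cast h6
      linarith
    have hfin : (B.card : ℝ) < J := by
      have h10 : ((18 * s : ℕ) : ℝ) * (J * Sg + 2 ^ (9 * s)) =
          J * ((18 * s : ℝ) * Sg) + (18 * s : ℝ) * 2 ^ (9 * s) := by
        push_cast; ring
      rw [h10] at hBcard
      have h11 : (J : ℝ) * ((18 * s : ℝ) * Sg) ≤ J * 0.87 :=
        mul_le_mul_of_nonneg_left hS2 hJpos.le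
      linarith
    exact_mod_cast hfin
  obtain ⟨j, hj, hjB⟩ : ∃ j ∈ Finset.range J, j ∉ B := by
    by_contra hcon
    push Not at hcon
    have := Finset.card_le_card (show Finset.range J ⊆ B from hcon)
    rw [Finset.card_range] at this
    omega
  refine ⟨j, Finset.mem_range.1 hj, fun k hk p hp hmod => hjB ?_⟩
  simp only [B, Finset.mem_biUnion, Finset.mem_range]
  refine ⟨k, hk, p, hp, ?_⟩
  rw [bad, Finset.mem_filter]
  exact ⟨hj, hmod⟩

lemma good_aux (s j n : ℕ) (hs : 1000000 ≤ s) (hn : n = PP (4 * s) * (2 * j + 1))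
    (hj : j < 2 ^ (10 * s - 1))
    (hgood : ∀ k, k < 18 * s → ∀ p ∈ TT (4 * s + 1) (2 ^ (9 * s)),
      ¬ (n ≡ 2 ^ k [MOD p * p])) :
    ∀ k : ℕ, 1 ≤ k → 2 ^ k < n → Squarefree (n - 2 ^ k) := by
  intro k hk1 hkn
  have hnodd : Odd n := by rw [hn]; exact (PP_odd _).mul ⟨j, rfl⟩
  have hnlt : n < 2 ^ (18 * s) := by
    have h1 : PP (4 * s) ≤ 2 ^ (8 * s) := by
      refine (PP_le _).trans (le_of_eq ?_)
      have e : 8 * s = 2 * (4 * s) := by ring
      have e2 : (2 : ℕ) ^ (2 * (4 * s)) = (2 ^ 2) ^ (4 * s) := pow_mul 2 2 (4 * s)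
      have e4 : (2 : ℕ) ^ 2 = 4 := by norm_num
      rw [e, e2, e4]
    have h2 : 2 * j + 1 < 2 ^ (10 * s) := by
      obtain ⟨t, ht⟩ : ∃ t, 10 * s = t + 1 := ⟨10 * s - 1, by omega⟩
      have e : 10 * s - 1 = t := by omega
      rw [e] at hj
      rw [ht, pow_succ]
      omega
    have e3 : 8 * s + 10 * s = 18 * s := by ring
    calc n = PP (4 * s) * (2 * j + 1) := hn
      _ < PP (4 * s) * 2 ^ (10 * s) := Nat.mul_lt_mul_of_pos_left h2 (PP_pos _)
      _ ≤ 2 ^ (8 * s) * 2 ^ (10 * s) := Nat.mul_le_mul_right _ h1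
      _ = 2 ^ (18 * s) := by rw [← pow_add, e3]
  have hk : k < 18 * s := by
    by_contra hcon
    push Not at hcon
    have h1 : 2 ^ (18 * s) ≤ 2 ^ k := Nat.pow_le_pow_right (by norm_num) hcon
    exact absurd (lt_of_lt_of_le hnlt h1) (not_lt.2 hkn.le)
  rw [Nat.squarefree_iff_prime_squarefree]
  intro p hp hdvd
  have hpos : 0 < n - 2 ^ k := Nat.sub_pos_of_lt hkn
  have hple : p * p ≤ n - 2 ^ k := Nat.le_of_dvd hpos hdvd
  have hpn : p ∣ n - 2 ^ k := (Dvd.intro _ rfl).trans hdvd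
  have hodd : Odd (n - 2 ^ k) := by
    obtain ⟨t, ht⟩ := hnodd
    obtain ⟨k', hk'⟩ : ∃ k', k = k' + 1 := ⟨k - 1, by omega⟩
    rw [hk', pow_succ] at hkn ⊢
    exact ⟨t - 2 ^ k', by omega⟩
  have hp2 : p ≠ 2 := by
    intro h2
    rw [h2] at hpn
    rw [← Nat.not_even_iff_odd, even_iff_two_dvd] at hodd
    exact hodd hpn
  have hpy : 4 * s < p := by
    by_contra hcon
    push Not at hcon
    have h1 : p ∣ n := by rw [hn]; exact (dvd_PP hp hp2 hcon).trans (Dvd.intro _ rfl)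
    have h2 : p ∣ n - (n - 2 ^ k) := Nat.dvd_sub h1 hpn
    rw [Nat.sub_sub_self hkn.le] at h2
    exact hp2 ((Nat.prime_dvd_prime_iff_eq hp Nat.prime_two).1 (hp.dvd_of_dvd_pow h2))
  have hpZ : p < 2 ^ (9 * s) := by
    by_contra hcon
    push Not at hcon
    have h1 : 2 ^ (9 * s) * 2 ^ (9 * s) ≤ p * p := Nat.mul_le_mul hcon hcon
    have e3 : 9 * s + 9 * s = 18 * s := by ring
    rw [← pow_add, e3] at h1
    have h2 : p * p ≤ n := hple.trans (Nat.sub_le _ _)
    exact absurd (h1.trans h2) (not_le.2 hnlt)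
  refine hgood k hk p ?_ ?_
  · rw [TT, Finset.mem_filter, Finset.mem_Ico]
    exact ⟨⟨hpy, hpZ⟩, hp⟩
  · exact ((Nat.modEq_iff_dvd' hkn.le).2 hdvd).symm

/-- There are infinitely many good integers. -/
theorem result : {n : ℕ | Good n}.Infinite := by
  rw [Set.infinite_iff_exists_gt]
  intro b
  obtain ⟨q, hqb, hq⟩ := Nat.exists_infinite_primes (b + 3)
  obtain ⟨s, hs⟩ : ∃ s, s = q + 1000000 := ⟨_, rfl⟩
  obtain ⟨j, hj, hgood⟩ := exists_j s (by omega)
  have hqP : q ≤ PP (4 * s) := Nat.le_of_dvd (PP_pos _) (dvd_PP hq (by omega) (by omega))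
  have hnP : PP (4 * s) ≤ PP (4 * s) * (2 * j + 1) := Nat.le_mul_of_pos_right _ (by omega)
  exact ⟨PP (4 * s) * (2 * j + 1), ⟨by omega, good_aux s j _ (by omega) rfl hj hgood⟩, by omega⟩

end Pool.Agent.Results.MP_fcd74d_nt.InfinitelyManyGood
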